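import Pool.Agent.Y472.H.Defs
import Pool.Agent.Y674.CB.XL

/-!
# CB3-H-XFA: asymptotics of the trace for `χ` in the upper half plane
-/

set_option autoImplicit false

namespace Pool.Agent.Y809.CH

open Finset Filter Topology Metric
open Pool.Agent.W711.HT
open Pool.Agent.Y472
open Pool.Agent.Y481 (itI itN Sep wts cw)
open Pool.Agent.Y674.CB
open scoped Real

/-! ### Analytic functions -/

/-- quadratic bound of an even function -/
lemma quad {ρ C : ℝ} (hρ : 0 < ρ) {f : ℂ → ℂ} (hd : DifferentiableOn ℂ f (Rc ρ ρ))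
    (he : ∀ z ∈ Rc ρ ρ, f (-z) = f z) (hb : ∀ z ∈ Rc ρ ρ, ‖f z‖ ≤ C) {z : ℂ}
    (hz : ‖z‖ < ρ / 2) : ‖f z - f 0‖ ≤ 4 * C / ρ ^ 2 * ‖z‖ ^ 2 := by
  have hopen := rc_open ρ ρ
  have hC : 0 ≤ C := (norm_nonneg _).trans (hb 0 (rc_zero hρ))
  have hsub : ball (0 : ℂ) ρ ⊆ Rc ρ ρ := fun z hz => rc_norm (by rwa [mem_ball_zero_iff] at hz)
  have h00 : deriv f 0 = 0 := by
    have e1 : (fun z => f (-z)) =ᶠ[𝓝 0] f := by
      filter_upwards [hopen.mem_nhds (rc_zero hρ)] with z hz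
      exact he z hz
    have e2 := e1.deriv_eq
    rw [deriv_comp_neg, neg_zero] at e2
    have : (2 : ℂ) * deriv f 0 = 0 := by linear_combination -e2
    simpa using this
  have h1 : ∀ w ∈ ball (0 : ℂ) (ρ / 2), ‖deriv f w‖ ≤ C / (ρ / 2) := by
    intro w hw
    rw [mem_ball_zero_iff] at hw
    have hcb : closedBall w (ρ / 2) ⊆ Rc ρ ρ := by
      intro v hv
      apply hsub
      rw [mem_closedBall, dist_eq_norm] at hv
      rw [mem_ball_zero_iff]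
      have := norm_add_le (v - w) w
      rw [sub_add_cancel] at this
      linarith
    refine Complex.norm_deriv_le_of_forall_mem_sphere_norm_le (by positivity) ?_
      fun v hv => hb v (hcb (sphere_subset_closedBall hv))
    refine DifferentiableOn.diffContOnCl ?_
    rw [closure_ball _ (by positivity)]
    exact hd.mono hcb
  have h2 : ∀ w ∈ ball (0 : ℂ) (ρ / 2), ‖deriv f w‖ ≤ 4 * C / ρ ^ 2 * ‖w‖ := by
    intro w hw
    have hdd : DifferentiableOn ℂ (deriv f) (ball 0 (ρ / 2)) :=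
      (hd.deriv hopen).mono (fun v hv => hsub (ball_subset_ball (by linarith) hv))
    have h3 := Complex.dist_le_div_mul_dist_of_mapsTo_ball (f := deriv f) (c := (0 : ℂ))
      (R₁ := ρ / 2) (R₂ := C / (ρ / 2)) hdd (by
        intro v hv
        rw [h00, mem_closedBall, dist_zero_right]
        exact h1 v hv) hw
    rw [h00, dist_zero_right, dist_zero_right] at h3
    have e : C / (ρ / 2) / (ρ / 2) = 4 * C / ρ ^ 2 := by field_simp; ring
    rwa [e] at h3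
  have hcb : ∀ w ∈ closedBall (0 : ℂ) ‖z‖, w ∈ ball (0 : ℂ) (ρ / 2) := by
    intro w hw
    rw [mem_closedBall_zero_iff] at hw
    rw [mem_ball_zero_iff]
    linarith
  have h3 := Convex.norm_image_sub_le_of_norm_deriv_le (f := f) (C := 4 * C / ρ ^ 2 * ‖z‖)
    (s := closedBall (0 : ℂ) ‖z‖) (x := 0) (y := z)
    (fun w hw => hd.differentiableAt (hopen.mem_nhds (hsub (ball_subset_ball (by linarith)
      (hcb w hw)))))
    (fun w hw => (h2 w (hcb w hw)).trans (by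
      rw [mem_closedBall_zero_iff] at hw
      exact mul_le_mul_of_nonneg_left hw (by positivity)))
    (convex_closedBall _ _) (by simp) (by simp)
  rw [sub_zero, mul_assoc, ← sq] at h3
  exact h3

section sd

variable {ρ₀ c C : ℝ} {s dl : ℂ → ℂ → ℂ → ℂ} (hS : SD3 ρ₀ c C s dl)

include hS

/-- Lipschitz bound in the variable of the axis -/
lemma lip3 {ψ ψ' χ χ₀ : ℂ} (hψ : ψ ∈ Rc ρ₀ ρ₀) (hψ' : ψ' ∈ Rc ρ₀ ρ₀)
    (h0 : χ₀ ∈ Rc (ρ₀ / 2) (ρ₀ / 2)) (h : ‖χ - χ₀‖ < ρ₀ / 2) :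
    ‖s ψ ψ' χ - s ψ ψ' χ₀‖ ≤ 4 * C / ρ₀ * ‖χ - χ₀‖ := by
  have hρ := hS.hρ.1
  have hsub : ball χ₀ (ρ₀ / 2) ⊆ Rc ρ₀ ρ₀ := by
    intro v hv
    rw [mem_ball, dist_eq_norm] at hv
    have h1 := (Complex.abs_re_le_norm (v - χ₀)).trans_lt hv
    have h2 := (Complex.abs_im_le_norm (v - χ₀)).trans_lt hv
    rw [Complex.sub_re] at h1
    rw [Complex.sub_im] at h2
    have h3 := abs_sub_abs_le_abs_sub v.re χ₀.re
    have h4 := abs_sub_abs_le_abs_sub v.im χ₀.im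
    have h5 := h0.1
    have h6 := h0.2
    exact ⟨by linarith, by linarith⟩
  have hd : DifferentiableOn ℂ (fun w => s ψ ψ' w) (ball χ₀ (ρ₀ / 2)) := fun w hw =>
    (s_diff3 hS hψ hψ' (hsub hw)).differentiableWithinAt
  have h3 := Complex.dist_le_div_mul_dist_of_mapsTo_ball (f := fun w => s ψ ψ' w) (c := χ₀)
    (R₁ := ρ₀ / 2) (R₂ := 2 * C) hd (by
      intro v hv
      rw [mem_closedBall, dist_eq_norm]
      refine (norm_sub_le _ _).trans ?_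
      have h3 := hS.sbd ψ hψ ψ' hψ' v (hsub hv)
      have h4 := hS.sbd ψ hψ ψ' hψ' χ₀ (hsub (mem_ball_self (by positivity)))
      linarith) (by rw [mem_ball, dist_eq_norm]; exact h)
  rw [dist_eq_norm, dist_eq_norm] at h3
  have e : 2 * C / (ρ₀ / 2) = 4 * C / ρ₀ := by field_simp; ring
  rwa [e] at h3

/-- lower bound of the exponent -/
lemma low_re {ψ χ : ℂ} (hψ : ψ ∈ Rc ρ₀ ρ₀) (hχ : χ ∈ Rc ρ₀ ρ₀) :
    2 * bet - ψ.re ^ 2 / (4 * π) - χ.re ^ 2 / (4 * π) - C * (‖ψ‖ + ‖χ‖) ^ 4 ≤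
      (s 0 ψ χ).re := by
  have hρ := hS.hρ.1
  have hπ := Real.pi_pos
  have h1 := (Complex.abs_re_le_norm _).trans (hS.low 0 (rc_zero hρ) ψ hψ χ hχ)
  rw [norm_zero, zero_add] at h1
  have e : (s 0 ψ χ - (2 * bet - ((0 : ℂ) ^ 2 + ψ ^ 2 + χ ^ 2) / (4 * π))).re =
      (s 0 ψ χ).re - 2 * bet + (ψ.re ^ 2 - ψ.im ^ 2 + (χ.re ^ 2 - χ.im ^ 2)) / (4 * π) := by
    have e1 : (((0 : ℂ) ^ 2 + ψ ^ 2 + χ ^ 2) / (4 * π)).re =
        (ψ.re ^ 2 - ψ.im ^ 2 + (χ.re ^ 2 - χ.im ^ 2)) / (4 * π) := by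
      have e2 : (4 * π : ℂ) = ((4 * π : ℝ) : ℂ) := by push_cast; rfl
      rw [e2, Complex.div_ofReal_re]
      congr 1
      simp only [sq, Complex.add_re, Complex.mul_re, mul_zero, zero_add]
    rw [Complex.sub_re, Complex.sub_re, e1]
    have e3 : ((2 : ℂ) * (bet : ℂ)).re = 2 * bet := by simp
    rw [e3]
    ring
  rw [e, abs_le] at h1
  have h2 : (ψ.re ^ 2 - ψ.im ^ 2 + (χ.re ^ 2 - χ.im ^ 2)) / (4 * π) ≤
      ψ.re ^ 2 / (4 * π) + χ.re ^ 2 / (4 * π) := by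
    rw [← add_div]
    refine div_le_div_of_nonneg_right ?_ (by positivity)
    nlinarith [sq_nonneg ψ.im, sq_nonneg χ.im]
  linarith [h1.1]

end sd

/-! ### The full kernel -/

lemma gap_of {N : ℕ} {χ : ℂ} (h : 1 / (N : ℝ) ≤ χ.im) : Gap N χ := by
  intro t
  have h1 := Complex.abs_im_le_norm (χ - 2 * π * t / N)
  have e : (χ - 2 * π * t / N : ℂ).im = χ.im := by
    have e1 : (2 * π * t / N : ℂ) = ((2 * π * t / N : ℝ) : ℂ) := by push_cast; rfl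
    rw [e1, Complex.sub_im, Complex.ofReal_im, sub_zero]
  rw [e] at h1
  exact h.trans ((le_abs_self _).trans h1)

lemma gap_ev {u : ℕ → ℂ} {u₀ : ℂ} (hu : Tendsto u atTop (𝓝 u₀)) (h0 : 0 < u₀.im) :
    ∀ᶠ N : ℕ in atTop, Gap N (u N) := by
  have h1 : Tendsto (fun N => (u N).im) atTop (𝓝 u₀.im) := (Complex.continuous_im.tendsto _).comp hu
  have h2 := h1.eventually (lt_mem_nhds (show u₀.im / 2 < u₀.im by linarith))
  have h3 : ∀ᶠ N : ℕ in atTop, 1 / (N : ℝ) ≤ u₀.im / 2 :=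
    (tendsto_one_div_atTop_nhds_zero_nat).eventually_le_const (by positivity)
  filter_upwards [h2, h3] with N h4 h5
  exact gap_of (h5.trans h4.le)

/-- the denominators do not vanish (as in `Pool.Agent.Y280.CG.ph_ne`) -/
lemma ph_ne {N : ℕ} {χ : ℂ} (hN : 2 ≤ N) (hg : Gap N χ) {t : ℕ} (h1 : 1 ≤ t) (h2 : t < N) :
    Ph N χ t ≠ 0 := by
  have hNR : (0 : ℝ) < N := by exact_mod_cast (show 0 < N by omega)
  have hNC : (N : ℂ) ≠ 0 := by exact_mod_cast hNR.ne'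
  have hπ := Real.pi_pos
  have hN1 : 0 < 1 / (N : ℝ) := by positivity
  unfold Ph
  refine mul_ne_zero ?_ ?_
  · intro h
    have hc : Real.cos (2 * π * t / N) = 1 := by
      have h3 : ((2 - 2 * Real.cos (2 * π * t / N) : ℝ) : ℂ) = 0 := by
        push_cast at h ⊢
        exact h
      have h4 : 2 - 2 * Real.cos (2 * π * t / N) = 0 := by exact_mod_cast h3
      linarith
    obtain ⟨n, hn⟩ := (Real.cos_eq_one_iff _).1 hc
    have h5 : (n : ℝ) * N = t := by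
      field_simp at hn
      exact hn
    have h6 : n * (N : ℤ) = t := by exact_mod_cast h5
    have h7 : 0 < n := by
      by_contra hcon
      have : n * (N : ℤ) ≤ 0 := mul_nonpos_of_nonpos_of_nonneg (not_lt.1 hcon) (by positivity)
      omega
    have h8 : (N : ℤ) ≤ n * (N : ℤ) := le_mul_of_one_le_left (by positivity) (by omega)
    omega
  · intro h
    have hc : Complex.cos χ = Complex.cos (2 * π * t / N : ℂ) := by
      have h3 : (2 : ℂ) * Complex.cos χ = 2 * Complex.cos (2 * π * t / N : ℂ) := by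
        have h4 := sub_eq_zero.1 h
        rw [h4]
        push_cast
        rfl
      exact mul_left_cancel₀ two_ne_zero h3
    obtain ⟨k, hk⟩ := Complex.cos_eq_cos_iff.1 hc
    rcases hk with hk | hk
    · have h3 := hg (t - k * N)
      have h4 : χ - 2 * π * ((t - k * N : ℤ) : ℂ) / N = 0 := by
        push_cast
        field_simp at hk ⊢
        linear_combination (-1 : ℂ) * hk
      rw [h4, norm_zero] at h3
      linarith
    · have h3 := hg (k * N - t)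
      have h4 : χ - 2 * π * ((k * N - t : ℤ) : ℂ) / N = 0 := by
        push_cast
        field_simp at hk ⊢
        linear_combination hk
      rw [h4, norm_zero] at h3
      linarith

lemma kF_sep {L : ℕ} (N : ℕ) {i j : ℕ} (hi : i < L) (hj : j < L) (χ : ℂ) :
    Sep L (fun ψ => kF N (ψ i) (ψ j) χ) := by
  unfold kF
  refine Sep.sum _ fun d _ => ?_
  have h := (((Sep.var hi (Rp_diff N d)).mul (Sep.var hj (Rp_diff N d))).mul
    (Sep.const (n := L) (Tg N 0 χ))).mul (Sep.const (n := L) ((∏ t ∈ Ioc 0 d, Ph N χ t)⁻¹))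
  exact h

lemma WkF_sep {n : ℕ} (hn : 1 ≤ n) (N : ℕ) (χ : ℂ) : Sep n (WkF n N χ) := by
  unfold WkF
  refine Sep.prod _ fun j hj => ?_
  rw [mem_range] at hj
  exact kF_sep N hj (Nat.mod_lt _ (by omega)) χ

lemma comb {N : ℕ} {x y : ℂ} {A A' T δ : ℝ} (h1 : ‖y‖ ≤ Real.exp (N * A))
    (h2 : ‖x - y‖ ≤ Real.exp (N * A')) (h3 : A + δ ≤ T) (h4 : A' + δ ≤ T)
    (h5 : 2 ≤ Real.exp (N * δ)) : ‖x‖ ≤ Real.exp (N * T) := by
  have h6 : ∀ a : ℝ, a + δ ≤ T → Real.exp (N * a) ≤ Real.exp (N * (T - δ)) := fun a ha =>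
    Real.exp_le_exp.2 (mul_le_mul_of_nonneg_left (by linarith) (Nat.cast_nonneg _))
  have h7 : ‖x‖ ≤ ‖y‖ + ‖x - y‖ := by
    have := norm_add_le y (x - y)
    rwa [add_sub_cancel] at this
  have h8 : Real.exp (N * δ) * Real.exp (N * (T - δ)) = Real.exp (N * T) := by
    rw [← Real.exp_add]
    congr 1
    ring
  have h9 := mul_le_mul_of_nonneg_right h5 (Real.exp_pos (N * (T - δ))).le
  linarith [h6 A h3, h6 A' h4]

lemma two_le_ev {δ : ℝ} (hδ : 0 < δ) : ∀ᶠ N : ℕ in atTop, 2 ≤ Real.exp (N * δ) := by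
  have : Tendsto (fun N : ℕ => Real.exp (N * δ)) atTop atTop :=
    Real.tendsto_exp_atTop.comp (tendsto_natCast_atTop_atTop.atTop_mul_const hδ)
  exact this.eventually_ge_atTop _

/-- asymptotics of the kernel near the origin -/
def AK (ρ₁ : ℝ) (s : ℂ → ℂ → ℂ → ℂ) : Prop := ∀ ε : ℝ, 0 < ε → ∀ᶠ N : ℕ in atTop,
  ∀ ψ ∈ Rc ρ₁ ρ₁, ∀ ψ' ∈ Rc ρ₁ ρ₁, ∀ χ ∈ Rc ρ₁ ρ₁, kh N ψ ψ' χ ≠ 0 ∧
    |Real.log ‖kh N ψ ψ' χ‖ - N * (s ψ ψ' χ).re| ≤ ε * N

/-- the rest of the kernel -/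
def RK (τ : ℝ) : Prop := ∀ᶠ N : ℕ in atTop, ∀ ψ ψ' χ : ℂ,
  |ψ.re| ≤ π → |ψ.im| ≤ τ → |ψ'.re| ≤ π → |ψ'.im| ≤ τ → |χ.re| ≤ π → |χ.im| ≤ 9 / 5 → Gap N χ →
  ‖kF N ψ ψ' χ - kh N ψ ψ' χ‖ ≤ Real.exp (N * (bet + bet / 2))

section lim

variable {ρ₀ c C ρ₁ τK : ℝ} {s dl : ℂ → ℂ → ℂ → ℂ} (hS : SD3 ρ₀ c C s dl) (h1 : ρ₁ ≤ ρ₀)
  (H : AK ρ₁ s) (HR : RK τK) (hbet : 0 < bet) {r : ℝ} (hr : 0 < r) (hr1 : r ≤ ρ₁) (hr2 : r ≤ τK)

include hS h1 H HR hbet hr1 hr2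

lemma kF_lim {x y u : ℕ → ℂ} {x₀ y₀ u₀ : ℂ} (hx0 : x₀ ∈ Rc r r) (hy0 : y₀ ∈ Rc r r)
    (hu0 : u₀ ∈ Rc r r) (hx : Tendsto x atTop (𝓝 x₀)) (hy : Tendsto y atTop (𝓝 y₀))
    (hu : Tendsto u atTop (𝓝 u₀)) (hui : 0 < u₀.im) (hre : 3 / 2 * bet < (s x₀ y₀ u₀).re) :
    (∀ᶠ N : ℕ in atTop, kF N (x N) (y N) (u N) ≠ 0) ∧
    Tendsto (fun N : ℕ => Real.log ‖kF N (x N) (y N) (u N)‖ / N) atTop (𝓝 (s x₀ y₀ u₀).re) := by
  have hρ := hS.hρ
  have hπ := Real.pi_gt_three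
  have ex := hx.eventually ((rc_open r r).mem_nhds hx0)
  have ey := hy.eventually ((rc_open r r).mem_nhds hy0)
  have eu := hu.eventually ((rc_open r r).mem_nhds hu0)
  have hl := kh_lim hS h1 H (rc_mono hr1 hx0) (rc_mono hr1 hy0) (rc_mono hr1 hu0) hx hy hu
  have hlim : Tendsto (fun N : ℕ => Real.log ‖kF N (x N) (y N) (u N)‖ / N) atTop
      (𝓝 (s x₀ y₀ u₀).re) := by
    refine log_near (b := fun N => kh N (x N) (y N) (u N)) (g' := 3 / 2 * bet) (Cf := 1)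
      (by linarith) hre hl.2 ?_
    filter_upwards [HR, ex, ey, eu, gap_ev hu hui] with N h2 h3 h4 h5 h6
    have h7 := h2 (x N) (y N) (u N) (by linarith [h3.1]) (h3.2.le.trans hr2)
      (by linarith [h4.1]) (h4.2.le.trans hr2) (by linarith [h5.1]) (by linarith [h5.2]) h6
    rw [one_mul]
    have e : bet + bet / 2 = 3 / 2 * bet := by ring
    rwa [e] at h7
  refine ⟨?_, hlim⟩
  have h2 := hlim.eventually (lt_mem_nhds (show 0 < (s x₀ y₀ u₀).re by linarith))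
  filter_upwards [h2] with N h3 h4
  rw [h4, norm_zero, Real.log_zero, zero_div] at h3
  exact lt_irrefl _ h3

lemma WkF_lim {n : ℕ} (hn : 1 ≤ n) {u : ℕ → ℂ} {u₀ : ℂ} (hu0 : u₀ ∈ Rc r r)
    (hu : Tendsto u atTop (𝓝 u₀)) (hui : 0 < u₀.im)
    (hre : ∀ x ∈ Rc r r, ∀ y ∈ Rc r r, 3 / 2 * bet < (s x y u₀).re) :
    SeqLim n r (fun N => WkF n N (u N)) (Sx s n u₀) := by
  intro ψ ψ₀ hψ₀ hψ
  have hm : ∀ j, (j + 1) % n < n := fun j => Nat.mod_lt _ (by omega)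
  have key : ∀ j < n, _ := fun j hj => kF_lim hS h1 H HR hbet hr1 hr2 (hψ₀ j hj)
    (hψ₀ ((j + 1) % n) (hm j)) hu0 (hψ j hj) (hψ ((j + 1) % n) (hm j)) hu hui
    (hre _ (hψ₀ j hj) _ (hψ₀ ((j + 1) % n) (hm j)))
  have h2 : ∀ᶠ N : ℕ in atTop, ∀ j ∈ range n, kF N (ψ N j) (ψ N ((j + 1) % n)) (u N) ≠ 0 := by
    rw [Filter.eventually_all_finset]
    intro j hj
    exact (key j (mem_range.1 hj)).1
  have h3 : Tendsto (fun N : ℕ => ∑ j ∈ range n,
      Real.log ‖kF N (ψ N j) (ψ N ((j + 1) % n)) (u N)‖ / N) atTop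
      (𝓝 (∑ j ∈ range n, (s (ψ₀ j) (ψ₀ ((j + 1) % n)) u₀).re)) :=
    tendsto_finsetSum _ fun j hj => (key j (mem_range.1 hj)).2
  have h4 : (Sx s n u₀ ψ₀).re = ∑ j ∈ range n, (s (ψ₀ j) (ψ₀ ((j + 1) % n)) u₀).re := by
    unfold Sx
    rw [Complex.re_sum]
  rw [h4]
  refine h3.congr' ?_
  filter_upwards [h2] with N hN
  unfold WkF
  rw [norm_prod, Real.log_prod (fun j hj => norm_ne_zero_iff.2 (hN j hj)), sum_div]

/-- upper bound near the origin -/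
lemma near_bd {u : ℕ → ℂ} {u₀ : ℂ} (hu0 : u₀ ∈ Rc r r) (hr3 : r ≤ ρ₀ / 2)
    (hu : Tendsto u atTop (𝓝 u₀)) (hui : 0 < u₀.im)
    (hre : ∀ x ∈ Rc r r, ∀ y ∈ Rc r r, 3 / 2 * bet < (s x y u₀).re) {ε : ℝ} (hε : 0 < ε) :
    ∀ᶠ N : ℕ in atTop, ∀ ψ ∈ Rc r r, ∀ ψ' ∈ Rc r r,
      ‖kF N ψ ψ' (u N)‖ ≤ Real.exp (N * ((s ψ ψ' u₀).re + ε)) := by
  have hρ := hS.hρ
  have hC := hS.hC
  have hπ := Real.pi_gt_three
  have eu := hu.eventually ((rc_open r r).mem_nhds hu0)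
  have ed : ∀ᶠ N : ℕ in atTop, ‖u N - u₀‖ < min (ρ₀ / 2) (ε * ρ₀ / (16 * C)) := by
    have := (tendsto_iff_norm_sub_tendsto_zero.1 hu).eventually
      (gt_mem_nhds (show 0 < min (ρ₀ / 2) (ε * ρ₀ / (16 * C)) from
        lt_min (by linarith [hρ.1]) (div_pos (mul_pos hε hρ.1) (by positivity))))
    exact this
  filter_upwards [HR, H (ε / 4) (by positivity), eu, ed, gap_ev hu hui,
    two_le_ev (show 0 < ε / 2 by positivity), eventually_ge_atTop 1] with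
    N k1 k2 k3 k4 k5 k6 k7 ψ hψ ψ' hψ'
  have hN : (0 : ℝ) < N := by exact_mod_cast k7
  have h2 := k1 ψ ψ' (u N) (by linarith [hψ.1]) (hψ.2.le.trans hr2)
    (by linarith [hψ'.1]) (hψ'.2.le.trans hr2) (by linarith [k3.1]) (by linarith [k3.2]) k5
  obtain ⟨h3, h4⟩ := k2 ψ (rc_mono hr1 hψ) ψ' (rc_mono hr1 hψ') (u N) (rc_mono hr1 k3)
  have h5 : ‖kh N ψ ψ' (u N)‖ ≤ Real.exp (N * ((s ψ ψ' (u N)).re + ε / 4)) := by
    rw [← Real.log_le_iff_le_exp (norm_pos_iff.2 h3)]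
    have := (abs_le.1 h4).2
    linarith
  have h6 := lip3 hS (rc_mono (hr1.trans h1) hψ) (rc_mono (hr1.trans h1) hψ') (rc_mono hr3 hu0)
    (k4.trans_le (min_le_left _ _))
  have h7 : 4 * C / ρ₀ * ‖u N - u₀‖ ≤ ε / 4 := by
    have h8 := (k4.trans_le (min_le_right _ _)).le
    have hρ0 := hρ.1
    calc 4 * C / ρ₀ * ‖u N - u₀‖ ≤ 4 * C / ρ₀ * (ε * ρ₀ / (16 * C)) :=
          mul_le_mul_of_nonneg_left h8 (by positivity)
      _ = ε / 4 := by field_simp; ring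
  have h8 := (Complex.re_le_norm _).trans (h6.trans h7)
  rw [Complex.sub_re] at h8
  refine comb (δ := ε / 2) h5 h2 (by linarith) ?_ k6
  linarith [hre ψ hψ ψ' hψ']

end lim

/-! ### The far part -/

lemma c1_pos : 0 < c1 := by
  have := Real.pi_pos
  unfold c1
  positivity

lemma c1_eq (x : ℝ) : x / (4 * π) = 32 / 31 * (c1 * x) := by
  have := Real.pi_pos
  unfold c1
  field_simp
  ring

/-- the bound of KB3 -/
def BK (ρs ε τ : ℝ) : Prop := ∀ᶠ N : ℕ in atTop, ∀ ψ ψ' χ : ℂ, |ψ.re| ≤ π → |ψ.im| ≤ τ →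
  |ψ'.re| ≤ π → |ψ'.im| ≤ τ → |χ.re| ≤ π → |χ.im| ≤ τ →
    ‖kh N ψ ψ' χ‖ ≤ Real.exp (N * (2 * bet - c1 * min |ψ.re| ρs ^ 2 -
      c1 * min |ψ'.re| ρs ^ 2 - c1 * min |χ.re| ρs ^ 2 + ε))

section far

variable {ρ₀ c C ρs τB τK τ r R : ℝ} {s dl : ℂ → ℂ → ℂ → ℂ} (hS : SD3 ρ₀ c C s dl)
  (hr : 0 < r) (HB : BK ρs (c1 * r ^ 2 / 8) τB) (HR : RK τK) (hbet : 0 < bet) (hrs : r ≤ ρs)
  (hrρ : 8 * r ≤ ρ₀) (hCr : 4096 * C * r ^ 2 ≤ c1) (hqb : c1 * r ^ 2 ≤ bet / 4)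
  (hR : R ≤ r / 8) (hRB : R ≤ τB) (hτ : 0 < τ) (hτB : τ ≤ τB) (hτK : τ ≤ τK) (hτr : τ ≤ r)

include hS hr hrρ hCr hR in
lemma low_s {ψ u₀ : ℂ} (hu0 : u₀ ∈ Rc R R) (h1 : |ψ.re| ≤ r) (h2 : |ψ.im| ≤ r) :
    2 * bet - c1 * ψ.re ^ 2 - c1 * r ^ 2 / 8 ≤ (s 0 ψ u₀).re := by
  have hC := hS.hC
  have hc1 := c1_pos
  have hψ : ψ ∈ Rc ρ₀ ρ₀ := ⟨by linarith, by linarith⟩
  have hu : u₀ ∈ Rc ρ₀ ρ₀ := rc_mono (by linarith) hu0
  have h3 := low_re hS hψ hu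
  rw [c1_eq, c1_eq] at h3
  have h4 : c1 * ψ.re ^ 2 ≤ c1 * r ^ 2 := by
    rw [← sq_abs ψ.re]
    exact mul_le_mul_of_nonneg_left (pow_le_pow_left₀ (abs_nonneg _) h1 2) hc1.le
  have h5 : c1 * u₀.re ^ 2 ≤ c1 * r ^ 2 / 64 := by
    rw [← sq_abs u₀.re]
    have : |u₀.re| ^ 2 ≤ (r / 8) ^ 2 := pow_le_pow_left₀ (abs_nonneg _) (hu0.1.le.trans hR) 2
    have := mul_le_mul_of_nonneg_left this hc1.le
    linarith
  have h6 : ‖ψ‖ + ‖u₀‖ ≤ 4 * r := by
    have h7 := Complex.norm_le_abs_re_add_abs_im ψ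
    have h8 := Complex.norm_le_abs_re_add_abs_im u₀
    linarith [hu0.1, hu0.2]
  have h7 : C * (‖ψ‖ + ‖u₀‖) ^ 4 ≤ c1 * r ^ 2 / 16 := by
    have h8 : (‖ψ‖ + ‖u₀‖) ^ 4 ≤ (4 * r) ^ 4 := pow_le_pow_left₀ (by positivity) h6 4
    have h9 := mul_le_mul_of_nonneg_left h8 hC.le
    have h10 := mul_le_mul_of_nonneg_right hCr (sq_nonneg r)
    nlinarith
  have h11 : 0 < c1 * r ^ 2 := by positivity
  linarith

include hS hr HB HR hbet hrs hrρ hCr hqb hR hRB hτ hτB hτK hτr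

/-- one variable away from the origin -/
lemma far1 {u : ℕ → ℂ} {u₀ : ℂ} (hu0 : u₀ ∈ Rc R R) (hu : Tendsto u atTop (𝓝 u₀))
    (hui : 0 < u₀.im)
    (hre : ∀ y ∈ Rc (8 * r) (8 * r), 7 / 4 * bet ≤ (s 0 y u₀).re) :
    ∀ᶠ N : ℕ in atTop, ∀ ψ ψ' : ℂ, r ≤ |ψ.re| → |ψ.re| ≤ π → |ψ.im| ≤ 1 / N →
    |ψ'.re| ≤ r → |ψ'.im| ≤ τ → ‖kF N ψ ψ' (u N)‖ ≤
      Real.exp (N * ((s 0 ψ' u₀).re - c1 * r ^ 2 / 4)) ∧
      ‖kF N ψ' ψ (u N)‖ ≤ Real.exp (N * ((s ψ' 0 u₀).re - c1 * r ^ 2 / 4)) := by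
  have hc1 := c1_pos
  have hρ := hS.hρ
  have hπ := Real.pi_gt_three
  have hq : 0 < c1 * r ^ 2 := by positivity
  have eu := hu.eventually ((rc_open R R).mem_nhds hu0)
  have e1 : ∀ᶠ N : ℕ in atTop, 1 / (N : ℝ) ≤ τ :=
    (tendsto_one_div_atTop_nhds_zero_nat).eventually_le_const hτ
  filter_upwards [HB, HR, eu, e1, gap_ev hu hui, two_le_ev (show 0 < c1 * r ^ 2 / 8 by positivity)]
    with N k1 k2 k3 k4 k5 k6 ψ ψ' h1 h2 h3 h4 h5
  have hψr : |ψ'.re| ≤ π := by linarith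
  have ha := h3.trans (k4.trans hτB)
  have hb := h3.trans (k4.trans hτK)
  have hua : |(u N).re| ≤ π := by linarith [k3.1]
  have hub : |(u N).im| ≤ τB := k3.2.le.trans hRB
  have huc : |(u N).im| ≤ 9 / 5 := by linarith [k3.2]
  have hsym : s ψ' 0 u₀ = s 0 ψ' u₀ := hS.sym ψ' ⟨by linarith, by linarith⟩ 0 (rc_zero hρ.1) u₀
    (rc_mono (by linarith) hu0)
  have h6 := low_s hS hr hrρ hCr hR hu0 h4 (h5.trans hτr)
  have h7 := hre ψ' ⟨by linarith, by linarith⟩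
  have m1 : c1 * r ^ 2 ≤ c1 * min |ψ.re| ρs ^ 2 :=
    mul_le_mul_of_nonneg_left (pow_le_pow_left₀ hr.le (le_min h1 hrs) 2) hc1.le
  have m2 : min |ψ'.re| ρs = |ψ'.re| := min_eq_left (h4.trans hrs)
  have m3 : 0 ≤ c1 * min |(u N).re| ρs ^ 2 := by positivity
  rw [hsym]
  constructor
  · refine comb (δ := c1 * r ^ 2 / 8) (k1 ψ ψ' (u N) h2 ha hψr (h5.trans hτB) hua hub)
      (k2 ψ ψ' (u N) h2 hb hψr (h5.trans hτK) hua huc k5) ?_ ?_ k6
    · rw [m2, sq_abs]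
      linarith
    · linarith
  · refine comb (δ := c1 * r ^ 2 / 8) (k1 ψ' ψ (u N) hψr (h5.trans hτB) h2 ha hua hub)
      (k2 ψ' ψ (u N) hψr (h5.trans hτK) h2 hb hua huc k5) ?_ ?_ k6
    · rw [m2, sq_abs]
      linarith
    · linarith

/-- both variables away from the origin -/
lemma far2 {u : ℕ → ℂ} {u₀ : ℂ} (hu0 : u₀ ∈ Rc R R) (hu : Tendsto u atTop (𝓝 u₀))
    (hui : 0 < u₀.im)
    (hre : ∀ y ∈ Rc (8 * r) (8 * r), 7 / 4 * bet ≤ (s 0 y u₀).re) :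
    ∀ᶠ N : ℕ in atTop, ∀ ψ ψ' : ℂ, r ≤ |ψ.re| → |ψ.re| ≤ π → |ψ.im| ≤ 1 / N →
    r ≤ |ψ'.re| → |ψ'.re| ≤ π → |ψ'.im| ≤ 1 / N → ‖kF N ψ ψ' (u N)‖ ≤
      Real.exp (N * ((s 0 0 u₀).re - 2 * (c1 * r ^ 2 / 4))) := by
  have hc1 := c1_pos
  have hρ := hS.hρ
  have hπ := Real.pi_gt_three
  have hq : 0 < c1 * r ^ 2 := by positivity
  have eu := hu.eventually ((rc_open R R).mem_nhds hu0)
  have e1 : ∀ᶠ N : ℕ in atTop, 1 / (N : ℝ) ≤ τ :=
    (tendsto_one_div_atTop_nhds_zero_nat).eventually_le_const hτ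
  filter_upwards [HB, HR, eu, e1, gap_ev hu hui, two_le_ev (show 0 < c1 * r ^ 2 / 8 by positivity)]
    with N k1 k2 k3 k4 k5 k6 ψ ψ' h1 h2 h3 h4 h5 h6
  have hua : |(u N).re| ≤ π := by linarith [k3.1]
  have hub : |(u N).im| ≤ τB := k3.2.le.trans hRB
  have huc : |(u N).im| ≤ 9 / 5 := by linarith [k3.2]
  have h7 := low_s hS hr hrρ hCr hR hu0 (ψ := 0) (by simpa using hr.le) (by simpa using hr.le)
  rw [Complex.zero_re] at h7
  have h8 := hre 0 (rc_zero (by positivity))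
  have m1 : c1 * r ^ 2 ≤ c1 * min |ψ.re| ρs ^ 2 :=
    mul_le_mul_of_nonneg_left (pow_le_pow_left₀ hr.le (le_min h1 hrs) 2) hc1.le
  have m2 : c1 * r ^ 2 ≤ c1 * min |ψ'.re| ρs ^ 2 :=
    mul_le_mul_of_nonneg_left (pow_le_pow_left₀ hr.le (le_min h4 hrs) 2) hc1.le
  have m3 : 0 ≤ c1 * min |(u N).re| ρs ^ 2 := by positivity
  refine comb (δ := c1 * r ^ 2 / 8) (k1 ψ ψ' (u N) h2 (h3.trans (k4.trans hτB)) h5
    (h6.trans (k4.trans hτB)) hua hub) (k2 ψ ψ' (u N) h2 (h3.trans (k4.trans hτK)) h5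
    (h6.trans (k4.trans hτK)) hua huc k5) ?_ ?_ k6
  · linarith
  · linarith

end far

/-! ### The ring -/

lemma Dx_mid {ρ₀ c C : ℝ} {s dl : ℂ → ℂ → ℂ → ℂ} (hS : SD3 ρ₀ c C s dl) {n : ℕ} (hn : 2 ≤ n)
    {y : ℕ → ℂ} {χ : ℂ} (hy : ∀ i < n, y i ∈ Rc ρ₀ ρ₀) (hχ : χ ∈ Rc ρ₀ ρ₀) {j : ℕ}
    (hj : j < n) : Dx s n χ ((j + 1) % n) y =
      deriv (fun w => s (y j) w χ) (y ((j + 1) % n)) +
        deriv (fun w => s w (y (((j + 1) % n + 1) % n)) χ) (y ((j + 1) % n)) := by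
  have hm : ∀ j, (j + 1) % n < n := fun j => Nat.mod_lt _ (by omega)
  have hu : ∀ i < n, Function.update y n χ i = y i := fun i hi =>
    Function.update_of_ne (by omega) _ _
  have h := Dr_mid hS hn (y := Function.update y n χ) (by
    intro i hi
    by_cases h : i = n
    · rw [h, Function.update_self]; exact hχ
    · rw [Function.update_of_ne h]; exact hy i (by omega)) hj
  rw [Function.update_self, hu j hj, hu _ (hm j), hu _ (hm _)] at h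
  rw [← h]
  unfold Dx Dr
  rw [hu _ (hm j)]
  congr 1
  funext w
  unfold Sx Sr
  refine sum_congr rfl fun i hi => ?_
  rw [mem_range] at hi
  have h1 : Function.update (Function.update y n χ) ((j + 1) % n) w n = χ := by
    rw [Function.update_of_ne (hm j).ne', Function.update_self]
  have h2 : ∀ i < n, Function.update (Function.update y n χ) ((j + 1) % n) w i =
      Function.update y ((j + 1) % n) w i := by
    intro i hi
    by_cases h : i = (j + 1) % n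
    · rw [h, Function.update_self, Function.update_self]
    · rw [Function.update_of_ne h, Function.update_of_ne h, hu i hi]
  rw [h1, h2 i hi, h2 _ (hm i)]

lemma potA_mono {L : ℕ} {R c B B₁ p₀ B' : ℝ} {S : (ℕ → ℂ) → ℂ} {D : ℕ → (ℕ → ℂ) → ℂ}
    (h : PotA L R c B p₀ B' S D) (hB : B ≤ B₁) : PotA L R c B₁ p₀ B' S D where
  pot := h.pot
  hB := h.hB.trans_le hB
  hp := h.hp
  dbd := fun ψ hψ j hj => (h.dbd ψ hψ j hj).trans hB
  diag := fun ψ hψ j hj => (h.diag ψ hψ j hj).trans hB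
  off := h.off

/-- the critical configuration of GPA is the one of CRA -/
lemma crit_eq {ρ₀ c C : ℝ} {s dl : ℂ → ℂ → ℂ → ℂ} (hS : SD3 ρ₀ c C s dl) {n : ℕ} (hn : 2 ≤ n)
    {R c' B' P Cc : ℝ} {a : ℕ → ℤ} {zz : ℕ → (ℕ → ℂ) → ℕ → ℂ} {χ : ℂ} {z : ℕ → ℂ} (hR : 0 < R)
    (hRρ : R ≤ ρ₀) (hχ : χ ∈ Rc ρ₀ ρ₀)
    (hcr : Crt n R c' B' P Cc (Sx s n χ) (Dx s n χ) a zz)
    (hz : ∀ j < n, z j ∈ Rc (R / 2) (R / 2))
    (hz2 : ∀ j < n, Complex.I * a ((j + 1) % n) * z ((j + 1) % n) / (2 * π) + Complex.I +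
        deriv (fun w => s (z j) w χ) (z ((j + 1) % n)) +
        deriv (fun w => s w (z (((j + 1) % n + 1) % n)) χ) (z ((j + 1) % n)) = 0) :
    Uj (Sx s n χ) a n (zz n 0) = ∑ j ∈ range n, (Complex.I * a j * z j ^ 2 / (4 * π) +
        Complex.I * z j + s (z j) (z ((j + 1) % n)) χ) := by
  have hm : ∀ j, (j + 1) % n < n := fun j => Nat.mod_lt _ (by omega)
  obtain ⟨y, hy⟩ : ∃ y : ℕ → ℂ, y = fun j => if j < n then z j else 0 := ⟨_, rfl⟩
  have hy1 : ∀ j < n, y j = z j := fun j hj => by rw [hy]; exact if_pos hj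
  have hy2 : ∀ j, n ≤ j → y j = 0 := fun j hj => by rw [hy]; exact if_neg (by omega)
  have hyB : y ∈ Bx n (R / 2) := fun j hj => by rw [hy1 j hj]; exact hz j hj
  have hu := hcr.uniq n le_rfl 0 (fun i _ => rc_zero (by positivity)) y hyB
    (fun i hi => hy2 i hi) (by
      intro i hi
      obtain ⟨j, hj, hji⟩ : ∃ j < n, (j + 1) % n = i := by
        by_cases h0 : i = 0
        · refine ⟨n - 1, by omega, ?_⟩
          rw [h0, Nat.sub_add_cancel (by omega), Nat.mod_self]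
        · refine ⟨i - 1, by omega, ?_⟩
          rw [Nat.sub_add_cancel (by omega), Nat.mod_eq_of_lt hi]
      subst hji
      rw [Dx_mid hS hn (fun i hi => rc_mono (by linarith) (hyB i hi)) hχ hj, hy1 j hj,
        hy1 _ (hm j), hy1 _ (hm _), ← add_assoc]
      exact hz2 j hj)
  rw [← hu]
  unfold Uj Sx
  rw [← sum_add_distrib]
  refine sum_congr rfl fun j hj => ?_
  rw [mem_range] at hj
  rw [hy1 j hj, hy1 _ (hm j)]
  ring


/-- a radius on which the exponent is close to its value at the origin -/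
lemma radius {ρ₀ c C : ℝ} {s dl : ℂ → ℂ → ℂ → ℂ} (hS : SD3 ρ₀ c C s dl) (hbet : 0 < bet) :
    ∃ R₃ : ℝ, 0 < R₃ ∧ ∀ x ∈ Rc R₃ R₃, ∀ y ∈ Rc R₃ R₃, ∀ u ∈ Rc R₃ R₃,
      7 / 4 * bet ≤ (s x y u).re := by
  have hρ := hS.hρ.1
  have hc : ContinuousAt (fun p : ℂ × ℂ × ℂ => s p.1 p.2.1 p.2.2) (0, 0, 0) :=
    (s_diff hS (rc_zero hρ) (rc_zero hρ) (rc_zero hρ)).continuousAt
  rw [Metric.continuousAt_iff] at hc
  obtain ⟨δ, hδ, hδ2⟩ := hc (bet / 4) (by positivity)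
  have hn : ∀ x ∈ Rc (δ / 2) (δ / 2), dist x 0 < δ := by
    intro x hx
    rw [dist_zero_right]
    have h2 := Complex.norm_le_abs_re_add_abs_im x
    linarith [hx.1, hx.2]
  refine ⟨δ / 2, by positivity, fun x hx y hy u hu => ?_⟩
  have h1 : dist ((x, y, u) : ℂ × ℂ × ℂ) (0, 0, 0) < δ := by
    rw [Prod.dist_eq, Prod.dist_eq]
    exact max_lt (hn x hx) (max_lt (hn y hy) (hn u hu))
  have h2 := hδ2 h1
  rw [dist_eq_norm, hS.zero] at h2
  have h3 := (Complex.abs_re_le_norm _).trans h2.le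
  rw [Complex.sub_re, Complex.ofReal_re, abs_le] at h3
  linarith [h3.1]

/-- XFA: asymptotics of the trace for `χ` in the upper half plane -/
theorem xfa : S_XFA := by
  intro hPOTA hCRA hELA hFRD hGPA hKFF hKRZ hKB hMWK ρ₀ c C s dl hS
  have hρ := hS.hρ
  have hρ0 := hρ.1
  have hC := hS.hC
  have hπ := Real.pi_gt_three
  have hc1 := c1_pos
  obtain ⟨R₀, c', B₀, p₀, hR0, hR00, hP⟩ := hPOTA ρ₀ c C s dl hS
  obtain ⟨RG, c₂, B₂, C', MG, hRG, hRG0, hc2, hB2, hC', hMG, hG⟩ := hGPA ρ₀ c C s dl hS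
  obtain ⟨ρ₁, hρ1, hρ10, HM⟩ := hMWK hKB ρ₀ c C s dl hS
  obtain ⟨⟨ρs, hρs, hρs1, HB⟩, _⟩ := hKB
  obtain ⟨hB0, hp₀, hbet⟩ : 0 < B₀ ∧ 0 < p₀ ∧ 0 < bet := by
    obtain ⟨B', hB'⟩ := hP R₀ hR0 le_rfl 2 le_rfl
    have h := hB' 0 (rc_zero hR0)
    refine ⟨h.hB, h.hp, ?_⟩
    have h1 := h.pot.pos 0 (fun i _ => rc_zero hR0)
    have h2 : Sx s 2 0 0 = ((4 * bet : ℝ) : ℂ) := by
      unfold Sx
      simp only [Pi.zero_apply, hS.zero, sum_const, card_range, nsmul_eq_mul]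
      push_cast
      ring
    rw [h2, Complex.ofReal_re] at h1
    have h3 := h.hp
    push_cast at h1
    linarith
  obtain ⟨τK, hτK, HR⟩ := hKRZ (bet / 2) (by positivity)
  have HR' : RK τK := HR
  obtain ⟨R₃, hR3, hs3⟩ := radius hS hbet
  -- the radius of the box of the variables `ψ`
  obtain ⟨R₁, hR1, a1, a2, a3, a4, a5, a6, a7, a8, a9⟩ : ∃ R₁ : ℝ, 0 < R₁ ∧ R₁ ≤ R₀ ∧ R₁ ≤ ρ₁ ∧
      R₁ ≤ τK ∧ R₁ ≤ ρs ∧ R₁ ≤ ρ₀ / 4 ∧ R₁ ≤ R₃ ∧ R₁ ≤ c1 / (64 * C) ∧ R₁ ≤ bet ∧ R₁ ≤ 1 := by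
    refine ⟨min (min (min R₀ ρ₁) (min τK ρs)) (min (min (ρ₀ / 4) R₃) (min (c1 / (64 * C))
      (min bet 1))), ?_, ?_, ?_, ?_, ?_, ?_, ?_, ?_, ?_, ?_⟩
    · exact lt_min (lt_min (lt_min hR0 hρ1) (lt_min hτK hρs)) (lt_min (lt_min (by positivity) hR3)
        (lt_min (by positivity) (lt_min hbet one_pos)))
    · exact (min_le_left _ _).trans ((min_le_left _ _).trans (min_le_left _ _))
    · exact (min_le_left _ _).trans ((min_le_left _ _).trans (min_le_right _ _))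
    · exact (min_le_left _ _).trans ((min_le_right _ _).trans (min_le_left _ _))
    · exact (min_le_left _ _).trans ((min_le_right _ _).trans (min_le_right _ _))
    · exact (min_le_right _ _).trans ((min_le_left _ _).trans (min_le_left _ _))
    · exact (min_le_right _ _).trans ((min_le_left _ _).trans (min_le_right _ _))
    · exact (min_le_right _ _).trans ((min_le_right _ _).trans (min_le_left _ _))
    · exact (min_le_right _ _).trans ((min_le_right _ _).trans ((min_le_right _ _).trans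
        (min_le_left _ _)))
    · exact (min_le_right _ _).trans ((min_le_right _ _).trans ((min_le_right _ _).trans
        (min_le_right _ _)))
  obtain ⟨r, hr⟩ : ∃ r : ℝ, r = R₁ / 8 := ⟨_, rfl⟩
  have hr0 : 0 < r := by rw [hr]; positivity
  have h8r : 8 * r = R₁ := by rw [hr]; ring
  have hsq : R₁ ^ 2 ≤ R₁ := by
    rw [sq]
    exact mul_le_of_le_one_left hR1.le a9
  have hCr : 4096 * C * r ^ 2 ≤ c1 := by
    have e : 4096 * C * r ^ 2 = 64 * C * R₁ ^ 2 := by rw [hr]; ring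
    rw [e]
    calc 64 * C * R₁ ^ 2 ≤ 64 * C * (c1 / (64 * C)) :=
          mul_le_mul_of_nonneg_left (hsq.trans a7) (by positivity)
      _ = c1 := by field_simp
  have hc11 : c1 ≤ 1 := by
    unfold c1
    rw [div_le_one (by positivity)]
    linarith
  have hqb : c1 * r ^ 2 ≤ bet / 4 := by
    have e : c1 * r ^ 2 ≤ 1 * r ^ 2 := mul_le_mul_of_nonneg_right hc11 (sq_nonneg _)
    have e2 : r ^ 2 = R₁ ^ 2 / 64 := by rw [hr]; ring
    linarith
  have hq0 : 0 < c1 * r ^ 2 := by positivity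
  obtain ⟨τB, hτB, HBq⟩ := HB (c1 * r ^ 2 / 8) (by positivity)
  have HBq' : BK ρs (c1 * r ^ 2 / 8) τB := HBq
  obtain ⟨τ, hτ, hτB', hτK', hτr⟩ : ∃ τ : ℝ, 0 < τ ∧ τ ≤ τB ∧ τ ≤ τK ∧ τ ≤ r :=
    ⟨min τB (min τK r), lt_min hτB (lt_min hτK hr0), min_le_left _ _,
      (min_le_right _ _).trans (min_le_left _ _), (min_le_right _ _).trans (min_le_right _ _)⟩
  obtain ⟨B, hB⟩ : ∃ B : ℝ, B = B₀ + 4 * C / ρ₀ ^ 2 := ⟨_, rfl⟩
  have hq1 : 0 < 4 * C / ρ₀ ^ 2 := by positivity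
  have hBB0 : B₀ ≤ B := by rw [hB]; linarith
  have hBq : 4 * C / ρ₀ ^ 2 ≤ B := by rw [hB]; linarith
  obtain ⟨Cc, Mc, hCc, hMc, HCR⟩ := hCRA R₁ c' B p₀
  obtain ⟨Me, hMe, HEL⟩ := hELA R₁ c' B p₀ Cc hCc
  obtain ⟨Mf, hMf, HFR⟩ := hFRD R₁ c' B p₀ Cc (c1 * r ^ 2 / 4) τ hCc (by positivity) hτ
  obtain ⟨R, hR, b1, b2, b3⟩ : ∃ R : ℝ, 0 < R ∧ R ≤ RG ∧ R ≤ r / 8 ∧ R ≤ τB :=
    ⟨min RG (min (r / 8) τB), lt_min hRG (lt_min (by positivity) hτB), min_le_left _ _,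
      (min_le_right _ _).trans (min_le_left _ _), (min_le_right _ _).trans (min_le_right _ _)⟩
  obtain ⟨M, hM⟩ : ∃ M : ℝ, M = Mc + Me + Mf + MG + 4 * C' / R₁ := ⟨_, rfl⟩
  have p1 : 0 < 4 * C' / R₁ := by positivity
  have hM1 : Mc ≤ M := by rw [hM]; linarith
  have hM2 : Me ≤ M := by rw [hM]; linarith
  have hM3 : Mf ≤ M := by rw [hM]; linarith
  have hM4 : MG ≤ M := by rw [hM]; linarith
  have hM5 : 4 * C' / R₁ ≤ M := by rw [hM]; linarith
  have hM0 : 0 < M := by linarith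
  refine ⟨R, 2 * c₂, 2 * B₂, 2 * C', M, hR, by linarith, by linarith, by positivity, by positivity,
    by positivity, hM0, fun k hk ls hls hlsM => ?_⟩
  obtain ⟨n, hn⟩ : ∃ n, n = 2 * k := ⟨_, rfl⟩
  have hn2 : 2 ≤ n := by omega
  have hnR : (0 : ℝ) < n := by exact_mod_cast (by omega : 0 < n)
  have hnk : (n : ℝ) = 2 * k := by rw [hn]; push_cast; ring
  have hnC : (n : ℂ) = 2 * k := by rw [hn]; push_cast; ring
  have hls2 : 2 * ls.length = n := by rw [hls, hn]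
  have hlsn : ls ≠ [] := by
    rintro rfl
    simp only [List.length_nil] at hls
    omega
  have hcw : ∀ i < n, M ≤ |(cw ls i : ℝ)| := fun i hi => cw_bound hlsM (by rw [hls]; omega)
  obtain ⟨G, z, hGd, hG1, hG2, hG3⟩ := hG n hn2 (cw ls) fun j hj => hM4.trans (hcw j hj)
  have hsub : Rc R R ⊆ Rc RG RG := rc_mono b1
  have hsub0 : Rc R R ⊆ Rc ρ₀ ρ₀ := rc_mono (by linarith)
  obtain ⟨B', hPB⟩ := hP R₁ hR1 a1 n hn2
  refine ⟨G, z, hGd.mono hsub, ?_, ?_, ?_, ?_⟩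
  · intro χ hχ
    obtain ⟨h1, h2, h3⟩ := hG1 χ (hsub hχ)
    rw [hnk] at h2 h3
    exact ⟨h1, by linarith, by linarith⟩
  · -- asymptotics
    intro K hKc hKsub hKim
    have hval : ∀ χ ∈ K, ∀ (zz : ℕ → (ℕ → ℂ) → ℕ → ℂ),
        Crt n R₁ c' B' (p₀ * n) Cc (Sx s n χ) (Dx s n χ) (cw ls) zz →
        Uj (Sx s n χ) (cw ls) n (zz n 0) = G χ := by
      intro χ hχ zz hcr
      obtain ⟨h1, h2, h3⟩ := hG2 χ (hsub (hKsub hχ))
      rw [h3]
      refine crit_eq hS hn2 hR1 (by linarith) (hsub0 (hKsub hχ)) hcr ?_ fun j hj => ?_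
      · intro j hj
        have h4 := (h1 j hj).1
        refine rc_norm (h4.trans_lt ?_)
        have h5 : C' / |(cw ls j : ℝ)| ≤ C' / M :=
          div_le_div_of_nonneg_left hC'.le hM0 (hcw j hj)
        have h6 : C' / M ≤ R₁ / 4 := by
          rw [div_le_iff₀ hR1] at hM5
          rw [div_le_div_iff₀ hM0 (by norm_num)]
          linarith
        linarith
      · exact (h1 j hj).2.2.2.2
    have hseq := Pool.Agent.W583.HT.seq ℂ K hKc
      (fun N χ => Real.log ‖XF ls N χ‖ / N) (fun χ => (G χ).re) (by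
        intro χ hχ
        have h := (hGd.differentiableAt ((rc_open RG RG).mem_nhds (hsub (hKsub hχ)))).continuousAt
        exact (Complex.continuous_re.continuousAt.comp h).continuousWithinAt) (by
        intro p χ₀ hχ₀ hp hpt
        have hi := hKim χ₀ hχ₀
        have hRχ := hKsub hχ₀
        have hPA := potA_mono (hPB χ₀ (rc_mono (by linarith) hRχ)) hBB0
        obtain ⟨zz, hcr⟩ := HCR n B' _ _ hPA (cw ls) fun j hj => hM1.trans (hcw j hj)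
        have hre : ∀ x ∈ Rc R₁ R₁, ∀ y ∈ Rc R₁ R₁, 7 / 4 * bet ≤ (s x y χ₀).re := fun x hx y hy =>
          hs3 x (rc_mono a6 hx) y (rc_mono a6 hy) χ₀ (rc_mono (by linarith) hRχ)
        have hre' : ∀ x ∈ Rc R₁ R₁, ∀ y ∈ Rc R₁ R₁, 3 / 2 * bet < (s x y χ₀).re :=
          fun x hx y hy => lt_of_lt_of_le (by linarith) (hre x hx y hy)
        have hχ1 : χ₀ ∈ Rc R₁ R₁ := rc_mono (by linarith) hRχ
        -- near part
        have hlimf := WkF_lim hS hρ10 HM HR' hbet a2 a3 (n := n) (by omega) hχ1 hpt hi hre'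
        have hnear := HEL n B' _ _ hPA (cw ls) (fun j hj => hM2.trans (hcw j hj)) zz hcr
          (fun N => WkF n N (p N)) (fun N => WkF_sep (by omega) N _)
          (fun ψ ψ₀ h1 h2 => hlimf ψ ψ₀ (bx_mono (by linarith) h1) h2) n le_rfl (fun _ => 0) 0
          (fun i _ => rc_zero (by positivity)) (fun i _ => tendsto_const_nhds)
        beta_reduce at hnear
        rw [hval χ₀ hχ₀ zz (by
          have := hcr
          exact this)] at hnear
        -- far part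
        have hfar := HFR n B' (fun x y => s x y χ₀) hn2 hPA (by
            intro ψ hψ ψ' hψ'
            have hψ0 : ψ ∈ Rc ρ₀ ρ₀ := rc_mono (by linarith) hψ
            have hψ'0 : ψ' ∈ Rc ρ₀ ρ₀ := rc_mono (by linarith) hψ'
            have hχ0 := hsub0 hRχ
            have hnorm : ‖ψ‖ < ρ₀ / 2 := by
              have := Complex.norm_le_abs_re_add_abs_im ψ
              linarith [hψ.1, hψ.2]
            have h1 := quad (f := fun w => s w ψ' χ₀) hρ0 (fun w hw =>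
              (s_diff1 hS hw hψ'0 hχ0).differentiableWithinAt)
              (fun w hw => hS.ev w hw ψ' hψ'0 χ₀ hχ0) (fun w hw => hS.sbd w hw ψ' hψ'0 χ₀ hχ0) hnorm
            have h2 := h1.trans (mul_le_mul_of_nonneg_right hBq (sq_nonneg ‖ψ‖))
            refine ⟨h2, ?_⟩
            beta_reduce at h2 ⊢
            rw [hS.sym ψ' hψ'0 ψ hψ0 χ₀ hχ0, hS.sym ψ' hψ'0 0 (rc_zero hρ0) χ₀ hχ0]
            exact h2)
          (cw ls) (fun j hj => hM3.trans (hcw j hj)) zz hcr (fun N x y => kF N x y (p N))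
          (fun N i hi' j hj => kF_sep N hi' hj _)
          (by
            intro ε hε
            filter_upwards [near_bd hS hρ10 HM HR' hbet a2 a3 hχ1 (by linarith) hpt hi hre' hε]
              with N h1 ψ hψ ψ' hψ'
            exact h1 ψ (rc_mono (by linarith) hψ) ψ' (rc_mono (by linarith) hψ'))
          (by
            have h := far1 hS hr0 HBq' HR' hbet (by linarith) (by linarith) hCr hqb b2 b3 hτ hτB'
              hτK' hτr hRχ hpt hi (fun y hy => hre 0 (rc_zero hR1) y (by rwa [h8r] at hy))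
            filter_upwards [h] with N h1 ψ ψ' h2 h3 h4 h5 h6
            rw [← hr] at h2 h5
            exact h1 ψ ψ' h2 h3 h4 h5 h6)
          (by
            have h := far2 hS hr0 HBq' HR' hbet (by linarith) (by linarith) hCr hqb b2 b3 hτ hτB'
              hτK' hτr hRχ hpt hi (fun y hy => hre 0 (rc_zero hR1) y (by rwa [h8r] at hy))
            filter_upwards [h] with N h1 ψ ψ' h2 h3 h4 h5 h6 h7
            rw [← hr] at h2 h5
            exact h1 ψ ψ' h2 h3 h4 h5 h6 h7)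
        have hpos := (hcr.close n le_rfl 0 (fun i _ => rc_zero (by positivity))).2
        have hG0 := hval χ₀ hχ₀ zz hcr
        rw [hG0] at hpos
        have hGp : 0 < (G χ₀).re := lt_of_lt_of_le (by positivity) hpos
        refine log_near (b := fun N => itN (fun _ => R₁ / 8) (cw ls) N n (WkF n N (p N)) 0)
          (g' := (G χ₀).re - c1 * r ^ 2 / 4 / 2) (Cf := 1) hGp (by linarith) hnear ?_
        filter_upwards [hfar, gap_ev hpt hi, eventually_ge_atTop 2] with N h1 h2 h3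
        have h4 := hKFF N ls (p N) h3 hlsn (fun t ht1 ht2 => ph_ne h3 h2 ht1 ht2)
        have h5 : XF ls N (p N) = itI (cw ls) N n (WkF n N (p N)) 0 := by
          unfold XF
          rw [h4, ← mul_assoc, inv_mul_cancel₀, one_mul, hls2]
          have hN0 : (N : ℂ) ≠ 0 := by exact_mod_cast (by omega : N ≠ 0)
          have hπ0 : (π : ℂ) ≠ 0 := by exact_mod_cast Real.pi_ne_zero
          exact pow_ne_zero _ (div_ne_zero hN0 (mul_ne_zero two_ne_zero hπ0))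
        rw [h5, one_mul]
        have h6 : (Uj (Sg (fun x y => s x y χ₀) n) (cw ls) n (zz n 0)) = G χ₀ := hG0
        rw [h6] at h1
        exact h1)
    intro ε hε
    -- a lower bound of `Re G`
    rcases K.eq_empty_or_nonempty with hKe | hKn
    · exact Filter.Eventually.of_forall fun N χ hχ => by rw [hKe] at hχ; exact absurd hχ (by simp)
    have hGpos : ∀ χ ∈ K, p₀ * n / 2 ≤ (G χ).re := by
      intro χ hχ
      have hPA := potA_mono (hPB χ (rc_mono (by linarith) (hKsub hχ))) hBB0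
      obtain ⟨zz, hcr⟩ := HCR n B' _ _ hPA (cw ls) fun j hj => hM1.trans (hcw j hj)
      have hpos := (hcr.close n le_rfl 0 (fun i _ => rc_zero (by positivity))).2
      rw [hval χ hχ zz hcr] at hpos
      exact hpos
    have hpn : 0 < p₀ * n := by positivity
    filter_upwards [hseq (min ε (p₀ * n / 4)) (lt_min hε (by positivity)),
      eventually_ge_atTop 1] with N hN h1 χ hχ
    have hNp : (0 : ℝ) < N := by exact_mod_cast h1
    have h2 := hN χ hχ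
    have h3 := hGpos χ hχ
    refine ⟨?_, ?_⟩
    · intro h0
      have h4 := h2.trans (min_le_right _ _)
      simp only [h0, norm_zero, Real.log_zero, zero_div, zero_sub, abs_neg] at h4
      have h5 := le_abs_self (G χ).re
      linarith
    · have h4 := h2.trans (min_le_left _ _)
      have h5 : Real.log ‖XF ls N χ‖ / N - (G χ).re =
          (Real.log ‖XF ls N χ‖ - N * (G χ).re) / N := by
        field_simp
      rw [h5, abs_div, abs_of_pos hNp, div_le_iff₀ hNp] at h4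
      exact h4
  · intro χ hχ
    obtain ⟨h1, h2, h3⟩ := hG2 χ (hsub hχ)
    rw [← hn]
    refine ⟨fun j hj => ?_, h2, h3⟩
    obtain ⟨q1, q2, q3, q4, q5⟩ := h1 j hj
    exact ⟨rc_mono (by linarith) q2, q3, q4, q5⟩
  · intro m hm hm0 χ hχ
    have h := hG3 m (fun j hj => cw_bound hm (by rw [hls]; omega)) hm0 χ (hsub hχ)
    rw [hnC, hnk] at h
    refine h.trans (le_of_eq ?_)
    ring

end Pool.Agent.Y809.CH
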